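import Pool.Agent.W_1bfdb5_h19.Neg

/-!
# MP_1bfdb5_co: an explicit range in which the asymptotic formula of Q1 fails

`exC n k l`: the largest number of copies of `C_k` in a graph on `n` vertices without a copy of `C_l`.
`cKL k l`: the coefficient `c_{k,l}` of the problem.

For odd `k > l ≥ 3` with `k ≥ 33` and `(k - l - 2)^3 ≥ 216 k`, and for `l = 3` and all odd `k ≥ 13`,
the number `exC n k l` exceeds `(c_{k,l} + ε) n^k` for all large `n`.
-/

set_option autoImplicit false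

namespace Pool.Agent.Results.MP_1bfdb5_co.FailureRange

open Pool.Agent.CycGT

theorem result (k l : ℕ) (hk : Odd k) (hl : Odd l) (h3 : 3 ≤ l) (hlk : l < k)
    (h : 33 ≤ k ∧ 216 * k ≤ (k - l - 2) ^ 3 ∨ l = 3 ∧ 13 ≤ k) :
    ∃ ε : ℝ, 0 < ε ∧ ∃ N : ℕ, ∀ n ≥ N, (cKL k l + ε) * (n : ℝ) ^ k ≤ (exC n k l : ℝ) :=
  failure k l hk hl h3 hlk h

end Pool.Agent.Results.MP_1bfdb5_co.FailureRange
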