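import Pool.Agent.W_1bfdb5sh_h41.Shp
import Pool.Agent.W_1bfdb5sh_h41.Uni

/-!
# MP_1bfdb5_co: the asymptotically sharp threshold for Q1

`exC n k l`: the largest number of copies of `C_k` in a graph on `n` vertices without a copy of `C_l`.
`cKL k l`: the coefficient `c_{k,l}` of the problem.

Let `τ` be the root of `1 - τ = exp (-3 τ)` in `(0, 1)`, and `κ^3 = 8 / (τ^2 (1 - τ))` (about 151.96,
`κ` about 5.336).  For every `ε > 0` and all large odd `l`, and all odd `k > l`: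
Q1 holds for `(k, l)` if `(k - l)^3 ≤ (κ^3 - ε) l`, and it fails if `(k - l)^3 ≥ (κ^3 + ε) l`.
-/

set_option autoImplicit false

namespace Pool.Agent.Results.MP_1bfdb5_co.SharpThreshold

open Pool.Agent.CycGT Filter Topology

theorem result : (∃! τ : ℝ, (0 < τ ∧ τ < 1) ∧ 1 - τ = Real.exp (-3 * τ)) ∧
    ∀ τ : ℝ, 0 < τ → τ < 1 → 1 - τ = Real.exp (-3 * τ) →
      (94 / 100 < τ ∧ τ < 941 / 1000) ∧
      ∀ ε : ℝ, 0 < ε → ∃ l0 : ℕ, ∀ l : ℕ, l0 ≤ l → Odd l → ∀ k : ℕ, Odd k → l < k →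
        (((k : ℝ) - l) ^ 3 ≤ (8 / (τ ^ 2 * (1 - τ)) - ε) * l →
          Tendsto (fun n : ℕ => (exC n k l : ℝ) / (n : ℝ) ^ k) atTop (𝓝 (cKL k l)) ∧
          ∀ (V : Type) [Fintype V] (G : SimpleGraph V),
            (∀ i, Odd i → 3 ≤ i → i ≤ l → (SimpleGraph.cycleGraph i).Free G) →
              (G.copyCount (SimpleGraph.cycleGraph k) : ℝ) ≤
                cKL k l * (Fintype.card V : ℝ) ^ k) ∧
        ((8 / (τ ^ 2 * (1 - τ)) + ε) * l ≤ ((k : ℝ) - l) ^ 3 →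
          ∃ δ : ℝ, 0 < δ ∧ ∃ N : ℕ, ∀ n ≥ N, (cKL k l + δ) * (n : ℝ) ^ k ≤ (exC n k l : ℝ)) := by
  obtain ⟨τ, h1, h2, h3, h4⟩ := Pool.Agent.CycSh.sharp
  refine ⟨⟨τ, ⟨⟨by linarith, by linarith⟩, h3⟩, fun s hs =>
    Pool.Agent.CycSh.tau_uni hs.1.1 hs.2 (by linarith) h3⟩, fun s hs0 _ hs => ?_⟩
  have e : s = τ := Pool.Agent.CycSh.tau_uni hs0 hs (by linarith) h3
  subst e
  exact ⟨⟨h1, h2⟩, h4⟩

end Pool.Agent.Results.MP_1bfdb5_co.SharpThreshold
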