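import Pool.Agent.W_1bfdb5_h19.Concl

/-!
# MP_1bfdb5_co: the case k = l + 4

`exC n k l`: the largest number of copies of `C_k` in a graph on `n` vertices without a copy of `C_l`.
`cKL k l`: the coefficient `c_{k,l}` of the problem.

For all odd `l ≥ 3` the balanced blow-up of `C_{l+2}` asymptotically maximises the number of copies
of `C_{l+4}` among `C_l`-free graphs; for graphs without odd cycles of length at most `l` the bound
holds for every number of vertices, for closed walks and hence for copies.
-/

set_option autoImplicit false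

namespace Pool.Agent.Results.MP_1bfdb5_co.ShiftFour

open Pool.Agent.CycGT Filter Topology

theorem result (l : ℕ) (hl : Odd l) (h3 : 3 ≤ l) :
    Tendsto (fun n : ℕ => (exC n (l + 4) l : ℝ) / (n : ℝ) ^ (l + 4)) atTop
      (𝓝 (cKL (l + 4) l)) ∧
    cKL (l + 4) l = 1 / ((l : ℝ) + 2) ^ (l + 3) ∧
    ∀ (V : Type) [Fintype V] (G : SimpleGraph V),
      (∀ j, Odd j → 3 ≤ j → j ≤ l → (SimpleGraph.cycleGraph j).Free G) →
        Nat.card (SimpleGraph.cycleGraph (l + 4) →g G) * (l + 2) ^ (l + 3) ≤
          2 * (l + 4) * Fintype.card V ^ (l + 4) ∧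
        G.copyCount (SimpleGraph.cycleGraph (l + 4)) * (l + 2) ^ (l + 3) ≤
          Fintype.card V ^ (l + 4) :=
  ⟨all_odd l hl h3, cKL_four l, fun _ _ G hG => all_exact l hl h3 G hG⟩

end Pool.Agent.Results.MP_1bfdb5_co.ShiftFour
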