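import Pool.Agent.W_1bfdb5t_h19.All19

/-!
# MP_1bfdb5_co: the case l = 3 completely

`exC n k l`: the largest number of copies of `C_k` in a graph on `n` vertices without a copy of `C_l`.
`cKL k l`: the coefficient `c_{k,l}` of the problem.

Q1 holds for `(k, 3)` if `k ≤ 11` (with an exact bound for every triangle-free graph, for
homomorphisms and for copies), and it fails if `k ≥ 13`.
-/

set_option autoImplicit false

namespace Pool.Agent.Results.MP_1bfdb5_co.TriangleFree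

open Pool.Agent.CycGT Filter Topology

theorem result (k : ℕ) (hk : Odd k) (h3 : 3 < k) :
    (k ≤ 11 →
      Tendsto (fun n : ℕ => (exC n k 3 : ℝ) / (n : ℝ) ^ k) atTop (𝓝 (cKL k 3)) ∧
      ∀ (V : Type) [Fintype V] (G : SimpleGraph V), (SimpleGraph.cycleGraph 3).Free G →
        (Nat.card (SimpleGraph.cycleGraph k →g G) : ℝ) ≤
          2 * k * cKL k 3 * (Fintype.card V : ℝ) ^ k ∧
        (G.copyCount (SimpleGraph.cycleGraph k) : ℝ) ≤ cKL k 3 * (Fintype.card V : ℝ) ^ k) ∧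
    (12 ≤ k → ∃ δ : ℝ, 0 < δ ∧ ∃ N : ℕ, ∀ n ≥ N,
      (cKL k 3 + δ) * (n : ℝ) ^ k ≤ (exC n k 3 : ℝ)) := by
  refine ⟨fun h11 => ?_, fun h12 => ?_⟩
  · obtain ⟨j, hj, rfl⟩ : ∃ j < 4, k = 5 + 2 * j := by
      obtain ⟨a, ha⟩ := hk
      exact ⟨a - 2, by omega, by omega⟩
    exact ⟨Pool.Agent.CycT.holds j hj, fun V _ G hG => Pool.Agent.CycT.holds_hom j hj G hG⟩
  · have h13 : 13 ≤ k := by
      obtain ⟨a, ha⟩ := hk
      omega
    exact failure k 3 hk (by decide) le_rfl h3 (Or.inr ⟨rfl, h13⟩)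

end Pool.Agent.Results.MP_1bfdb5_co.TriangleFree
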